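import Pool.Agent.Lib.MP_f05b2f_co.F.SetLink
import Pool.Agent.Lib.MP_f05b2f_co.L2.Main
import Pool.Agent.Lib.MP_f05b2f_co.TwoMain

/-!
Daykin–Kleitman–West question Q1 for the product of one chain of any length and any number of
chains of two elements.
-/

open Finset DKW
open scoped FinsetFamily

namespace Pool.Agent.Results.MP_f05b2f_co.ChainTimesCube

/-- `f(α,β)`: the least possible number of meets of two sets with `α` and `β` elements -/
noncomputable def f {n : ℕ} (k : Fin n → ℕ) (α β : ℕ) : ℕ :=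
  sInf {m | ∃ A B : Finset (Box k), #A = α ∧ #B = β ∧ #(A ⊼ B) = m}

theorem result (n : ℕ) (k : Fin n → ℕ) (i : Fin n) (hi : 1 ≤ k i)
    (hk : ∀ j, j ≠ i → k j = 2) (α β : ℕ)
    (_hα1 : 1 ≤ α) (hα : α ≤ ∏ i, k i) (_hβ1 : 1 ≤ β) (hβ : β ≤ ∏ i, k i) :
    ∃ σ : Equiv.Perm (Fin n), #(L k σ α) = α ∧ #(R k σ β) = β ∧
      #(L k σ α ⊼ R k σ β) = f k α β := by
  classical
  have hpos : ∀ j, 0 < k j := by
    intro j
    by_cases h : j = i
    · rw [h]; exact hi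
    · rw [hk j h]; exact two_pos
  have hcard : Fintype.card (Box k) = ∏ i, k i := UB.card_box k
  rw [← hcard] at hα hβ
  have hL : ∀ σ : Equiv.Perm (Fin n), #(L k σ α) = α := fun σ => card_initSeg (good_lex σ) hα
  have hR : ∀ σ : Equiv.Perm (Fin n), #(R k σ β) = β := fun σ => card_initSeg (good_rev σ) hβ
  have hne : {m | ∃ A B : Finset (Box k), #A = α ∧ #B = β ∧ #(A ⊼ B) = m}.Nonempty :=
    ⟨_, L k 1 α, R k 1 β, hL 1, hR 1, rfl⟩
  obtain ⟨A, B, hA, hB, hAB⟩ := Nat.sInf_mem hne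
  obtain ⟨A', B', e1, e2, dA, dB, e3⟩ := compression hpos A B
  have key : ∃ σ : Equiv.Perm (Fin n), #(L k σ #A' ∩ R k σ #B') ≤ #(A' ∩ B') := by
    obtain ⟨m, rfl⟩ : ∃ m, n = m + 1 := ⟨n - 1, by have := i.2; omega⟩
    exact DKWF.exists_perm_of_FSL hk two_pos hi (DKWF.FSL_tw hi m) dA dB
  obtain ⟨σ, hσ⟩ := key
  rw [e1, e2, hA, hB] at hσ
  refine ⟨σ, hL σ, hR σ, le_antisymm ?_ ?_⟩
  · have h1 := Finset.card_le_card (infs_subset_inter (isDown_initSeg (good_lex (k := k) σ) α)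
      (isDown_initSeg (good_rev (k := k) σ) β))
    exact (h1.trans hσ).trans (e3.trans_eq hAB)
  · exact Nat.sInf_le ⟨L k σ α, R k σ β, hL σ, hR σ, rfl⟩

end Pool.Agent.Results.MP_f05b2f_co.ChainTimesCube
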