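import Pool.Agent.Lib.MP_f05b2f_co.UB.Main

/-!
Daykin–Kleitman–West question Q1 for products of chains of arbitrary lengths: every permutation
gives a pair within `(k_1 + ... + k_n)/4` of the minimum.
-/

open Finset DKW
open scoped FinsetFamily

namespace Pool.Agent.Results.MP_f05b2f_co.EveryOrder

/-- `f(α,β)`: the least possible number of meets of two sets with `α` and `β` elements -/
noncomputable def f {n : ℕ} (k : Fin n → ℕ) (α β : ℕ) : ℕ :=
  sInf {m | ∃ A B : Finset (Box k), #A = α ∧ #B = β ∧ #(A ⊼ B) = m}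

theorem result {n : ℕ} (k : Fin (n + 1) → ℕ) (hk : ∀ i, 1 ≤ k i) (N α β : ℕ)
    (hN : N = ∏ i, k i) (_hα1 : 1 ≤ α) (hα : α ≤ N) (_hβ1 : 1 ≤ β) (hβ : β ≤ N) :
    (α : ℚ) * β / N ≤ f k α β ∧
    ∀ σ : Equiv.Perm (Fin (n + 1)), #(L k σ α) = α ∧ #(R k σ β) = β ∧
      (#(L k σ α ⊼ R k σ β) : ℚ) ≤ (α : ℚ) * β / N + (∑ i, (k i : ℚ)) / 4 -
        max ((k (σ 0) : ℚ) * ((α : ℚ) / N - 1 / 2) ^ 2)
          ((k (σ (Fin.last n)) : ℚ) * ((β : ℚ) / N - 1 / 2) ^ 2) := by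
  classical
  have hL : ∀ σ : Equiv.Perm (Fin (n + 1)), #(L k σ α) = α := fun σ =>
    card_initSeg (good_lex σ) (by rw [UB.card_box, ← hN]; exact hα)
  have hR : ∀ σ : Equiv.Perm (Fin (n + 1)), #(R k σ β) = β := fun σ =>
    card_initSeg (good_rev σ) (by rw [UB.card_box, ← hN]; exact hβ)
  have hsub : ∀ σ : Equiv.Perm (Fin (n + 1)), #(L k σ α ⊼ R k σ β) ≤ #(L k σ α ∩ R k σ β) :=
    fun σ => Finset.card_le_card (infs_subset_inter (isDown_initSeg (good_lex (k := k) σ) α)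
      (isDown_initSeg (good_rev (k := k) σ) β))
  have hne : {m | ∃ A B : Finset (Box k), #A = α ∧ #B = β ∧ #(A ⊼ B) = m}.Nonempty :=
    ⟨_, L k 1 α, R k 1 β, hL 1, hR 1, rfl⟩
  have hN0 : 0 < N := by rw [hN]; exact Finset.prod_pos fun i _ => hk i
  have hNq : (0 : ℚ) < N := by exact_mod_cast hN0
  have key : ∀ (a b : ℕ) (j : Fin (n + 1)) (z : ℕ), a ≤ N → 4 * N ^ 2 * z ≤ 4 * N * (a * b) +
      4 * k j * (a * (N - a)) + N ^ 2 * ∑ l ∈ univ.erase j, k l →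
        (z : ℚ) ≤ a * b / N + (∑ i, (k i : ℚ)) / 4 - k j * (a / N - 1 / 2) ^ 2 := by
    intro a b j z ha h
    have hs : (∑ i, (k i : ℚ)) = k j + (∑ l ∈ univ.erase j, k l : ℕ) := by
      rw [← Finset.add_sum_erase univ (fun i => (k i : ℚ)) (Finset.mem_univ j)]
      push_cast
      rfl
    rw [hs]
    generalize (∑ l ∈ univ.erase j, k l) = C at h ⊢
    have h1 : (4 * N ^ 2 * z : ℚ) ≤ 4 * N * (a * b) + 4 * k j * (a * (N - a)) + N ^ 2 * C := by
      have h2 : ((4 * N ^ 2 * z : ℕ) : ℚ) ≤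
          ((4 * N * (a * b) + 4 * k j * (a * (N - a)) + N ^ 2 * C : ℕ) : ℚ) := by
        exact_mod_cast h
      push_cast [Nat.cast_sub ha] at h2
      exact h2
    have h2 : (a * b / N + (k j + C) / 4 - k j * (a / N - 1 / 2) ^ 2 : ℚ) =
        (4 * N * (a * b) + 4 * k j * (a * (N - a)) + N ^ 2 * C) / (4 * N ^ 2) := by
      field_simp
      ring
    rw [h2, le_div_iff₀ (by positivity)]
    linarith
  refine ⟨?_, fun σ => ⟨hL σ, hR σ, ?_⟩⟩
  · obtain ⟨A, B, hA, hB, hAB⟩ := Nat.sInf_mem hne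
    have h := UB.lower A B
    rw [hA, hB, hAB, ← hN] at h
    have h1 : ((α * β : ℕ) : ℚ) ≤ ((N * f k α β : ℕ) : ℚ) := by exact_mod_cast h
    push_cast at h1
    rw [div_le_iff₀ hNq]
    linarith
  · rw [le_sub_comm]
    refine max_le ?_ ?_
    · rw [le_sub_comm]
      have h := UB.sharp (fun i => hk i) σ (hN ▸ hα) (hN ▸ hβ)
      rw [← hN] at h
      exact le_trans (Nat.cast_le.2 (hsub σ)) (key α β (σ 0) _ hα h)
    · rw [le_sub_comm]
      have h := UB.sharp' (fun i => hk i) σ (hN ▸ hα) (hN ▸ hβ)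
      rw [← hN, mul_comm α β] at h
      have h1 := key β α (σ (Fin.last n)) _ hβ h
      rw [mul_comm (β : ℚ) α] at h1
      exact le_trans (Nat.cast_le.2 (hsub σ)) h1

end Pool.Agent.Results.MP_f05b2f_co.EveryOrder
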